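import Mathlib

namespace Pool.Agent.H.MP_f42bc2_nt

theorem core (r x y : ℝ) (hr : 144 ≤ r) (h1 : 1 ≤ |x * y|) (h2 : 1 ≤ |(2 - x) * (2 - y)|)
    (l1 : r ≤ |(r ^ 2 - 1) * x + 2|) (l2 : |(r ^ 2 - 1) * x + 2| < r ^ 3) :
    (r ^ 2 - 1) / 27 ≤ |(r ^ 2 - 1) * x + 2| * |2 - y + y / r ^ 2| := by
  set H := r ^ 2 - 1 with hH
  have r0 : 0 < r := by linarith
  have H0 : 0 < H := by nlinarith
  set X := |H * x + 2| with hX
  have a1 : H * |x| ≤ X + 2 := by
    have := abs_sub (H * x + 2) 2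
    rw [add_sub_cancel_right, abs_mul, abs_of_pos H0, abs_two] at this
    exact this
  have a2 : 2 * (H * |x|) ≤ 3 * X := by linarith
  have a3 : |x| ≤ 2 * r := by
    by_contra c
    have : H * (2 * r) < H * |x| := mul_lt_mul_of_pos_left (not_le.1 c) H0
    nlinarith [mul_pos r0 r0]
  have t0 : |y / r ^ 2| = |y| / r ^ 2 := by rw [abs_div, abs_of_pos (pow_pos r0 2)]
  have key : 1 / 18 ≤ |x| * |2 - y + y / r ^ 2| := by
    rw [abs_mul] at h1 h2
    have x0 := abs_nonneg x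
    have t1 : |2 - y| ≤ |2 - y + y / r ^ 2| + |y| / r ^ 2 := by
      have := abs_sub (2 - y + y / r ^ 2) (y / r ^ 2)
      rwa [add_sub_cancel_right, t0] at this
    rcases le_or_gt 4 |y| with c | c
    · have t2 : |y| ≤ |2 - y| + 2 := by
        have := abs_sub 2 (2 - y)
        rw [sub_sub_cancel, abs_two] at this
        linarith
      have t3 : |y| / r ^ 2 ≤ |y| / 4 :=
        div_le_div_of_nonneg_left (abs_nonneg y) (by norm_num) (by nlinarith)
      have t4 : |y| / 4 ≤ |2 - y + y / r ^ 2| := by linarith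
      nlinarith [mul_le_mul_of_nonneg_left t4 x0]
    · have x1 : 1 / 4 < |x| := by
        by_contra d
        nlinarith [abs_nonneg y]
      have t2 : |2 - x| ≤ 9 * |x| := by
        have := abs_sub 2 x
        rw [abs_two] at this
        linarith
      have t3 : 1 ≤ 9 * |x| * |2 - y| :=
        h2.trans (mul_le_mul_of_nonneg_right t2 (abs_nonneg _))
      have t4 : |x| * (|y| / r ^ 2) ≤ 1 / 18 := by
        rw [← mul_div_assoc, div_le_iff₀ (pow_pos r0 2)]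
        have := mul_le_mul a3 c.le (abs_nonneg y) (by linarith)
        nlinarith
      nlinarith [mul_le_mul_of_nonneg_left t1 x0]
  have z0 := abs_nonneg (2 - y + y / r ^ 2)
  nlinarith [mul_le_mul_of_nonneg_right a2 z0, mul_le_mul_of_nonneg_left key H0.le]

noncomputable def u : ℤ√2 →+* ℝ := Zsqrtd.lift ⟨Real.sqrt 2, by simp⟩

noncomputable def w : ℤ√2 →+* ℝ := Zsqrtd.lift ⟨-Real.sqrt 2, by simp⟩

theorem norm_uw (a : ℤ√2) : (a.norm : ℝ) = u a * w a := by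
  have : Real.sqrt 2 * Real.sqrt 2 = 2 := by simp
  simp only [u, w, Zsqrtd.lift_apply_apply, Zsqrtd.norm_def]
  push_cast
  linear_combination (a.im : ℝ) ^ 2 * this

theorem nsq : ∀ n : ℤ, (2 : ℤ) ≠ n * n := by
  intro n h
  have : n ≤ -2 ∨ n = -1 ∨ n = 0 ∨ n = 1 ∨ 2 ≤ n := by omega
  rcases this with c | c | c | c | c
  · nlinarith
  · subst c; omega
  · subst c; omega
  · subst c; omega
  · nlinarith

theorem one_le (a : ℤ√2) (h : ¬ 2 ∣ a.re) : 1 ≤ |u a * w a| := by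
  rw [← norm_uw]
  have : a.norm ≠ 0 := fun c => h (by rw [(Zsqrtd.norm_eq_zero nsq a).1 c]; simp)
  exact_mod_cast Int.one_le_abs this

theorem odd_mul {a b : ℤ√2} (ha : ¬ 2 ∣ a.re) (hb : ¬ 2 ∣ b.re) : ¬ 2 ∣ (a * b).re := by
  rw [Zsqrtd.re_mul, mul_assoc]
  intro h
  rcases Int.prime_two.dvd_or_dvd ((Int.dvd_add_left (dvd_mul_right 2 _)).1 h) with c | c
  · exact ha c
  · exact hb c

theorem shift (e : ℤ√2) (he : e.norm = 1) (ho : ¬ 2 ∣ e.re) (hp : 0 < u e) (s : ℤ√2)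
    (hs : ¬ 2 ∣ s.re) (j : ℤ) : ∃ t : ℤ√2, ¬ 2 ∣ t.re ∧
      u ((e - 1) * t + 2) = u e ^ j * u ((e - 1) * s + 2) ∧
      ((e - 1) * t + 2).norm = ((e - 1) * s + 2).norm := by
  have hc : e * star e = 1 := by rw [← Zsqrtd.norm_eq_mul_conj, he]; simp
  have hn : (star e).norm = 1 := by rw [Zsqrtd.norm_conj, he]
  have hu : u (star e) = (u e)⁻¹ :=
    eq_inv_of_mul_eq_one_right (by rw [← map_mul, hc, map_one])
  induction j using Int.induction_on with
  | zero => exact ⟨s, hs, by simp, rfl⟩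
  | succ j ih =>
    obtain ⟨t, h1, h2, h3⟩ := ih
    have e1 : (e - 1) * (e * t + 2) + 2 = e * ((e - 1) * t + 2) := by ring
    refine ⟨e * t + 2, ?_, ?_, ?_⟩
    · have := odd_mul ho h1
      simp only [Zsqrtd.re_add, Zsqrtd.re_ofNat]
      omega
    · rw [e1, map_mul, h2, zpow_add_one₀ hp.ne']
      ring
    · rw [e1, Zsqrtd.norm_mul, he, one_mul, h3]
  | pred j ih =>
    obtain ⟨t, h1, h2, h3⟩ := ih
    have e1 : (e - 1) * (star e * (t - 2)) + 2 = star e * ((e - 1) * t + 2) := by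
      linear_combination (-2) * hc
    refine ⟨star e * (t - 2), ?_, ?_, ?_⟩
    · refine odd_mul (by simpa using ho) ?_
      simp only [Zsqrtd.re_sub, Zsqrtd.re_ofNat]
      omega
    · rw [e1, map_mul, h2, hu, zpow_sub_one₀ hp.ne']
      ring
    · rw [e1, Zsqrtd.norm_mul, hn, one_mul, h3]

theorem lower (e : ℤ√2) (he : e.norm = 1) (ho : ¬ 2 ∣ e.re) (hb : 144 ^ 2 ≤ u e) (s : ℤ√2)
    (hs : ¬ 2 ∣ s.re) : |((e - 1).norm : ℝ)| ≤ 27 * |(((e - 1) * s + 2).norm : ℝ)| := by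
  have hp : 0 < u e := by linarith
  have hw : w e = (u e)⁻¹ :=
    eq_inv_of_mul_eq_one_right (by rw [← norm_uw, he]; simp)
  obtain ⟨r, hr, hr2⟩ : ∃ r : ℝ, 144 ≤ r ∧ u e = r ^ 2 :=
    ⟨Real.sqrt (u e), Real.le_sqrt_of_sq_le hb, (Real.sq_sqrt hp.le).symm⟩
  have r0 : 0 < r := by linarith
  have hb1 : |((e - 1).norm : ℝ)| ≤ r ^ 2 - 1 := by
    rw [norm_uw, map_sub, map_sub, map_one, map_one, hw, hr2, abs_mul,
      abs_of_nonneg (by nlinarith : 0 ≤ r ^ 2 - 1)]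
    have i1 : 0 < (r ^ 2)⁻¹ := by positivity
    have i2 : (r ^ 2)⁻¹ ≤ 1 := inv_le_one_of_one_le₀ (by nlinarith)
    refine mul_le_of_le_one_right (by nlinarith) ?_
    rw [abs_le]
    constructor <;> linarith
  have hne : u ((e - 1) * s + 2) ≠ 0 := by
    intro c
    have h0 : ((e - 1) * s + 2).norm = 0 := by
      have := norm_uw ((e - 1) * s + 2)
      rw [c, zero_mul] at this
      exact_mod_cast this
    have h1 := (Zsqrtd.norm_eq_zero nsq _).1 h0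
    have h2 : (e - 1) * -s = 2 := by linear_combination -h1
    have h3 := congrArg Zsqrtd.norm h2
    rw [Zsqrtd.norm_mul] at h3
    have h4 : (e - 1).norm ∣ 4 := ⟨_, by rw [h3]; rfl⟩
    have h5 : |(e - 1).norm| ≤ 4 := Int.le_of_dvd (by norm_num) ((abs_dvd _ _).2 h4)
    have h6 : |((e - 1).norm : ℝ)| ≤ 4 := by exact_mod_cast h5
    rw [norm_uw, map_sub, map_sub, map_one, map_one, hw, abs_le] at h6
    have i1 : (u e)⁻¹ ≤ 1 / 2 := by
      rw [inv_le_comm₀ hp (by norm_num)]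
      linarith
    nlinarith [h6.1]
  obtain ⟨n, n1, n2⟩ := exists_mem_Ico_zpow (x := |u ((e - 1) * s + 2)| / r) (y := u e)
    (div_pos (abs_pos.2 hne) r0) (by linarith)
  obtain ⟨t, t1, t2, t3⟩ := shift e he ho hp s hs (-n)
  have z0 : 0 < u e ^ n := zpow_pos hp n
  have t4 : |u ((e - 1) * t + 2)| = |u ((e - 1) * s + 2)| / u e ^ n := by
    rw [t2, abs_mul, zpow_neg, abs_of_pos (inv_pos.2 z0)]
    ring
  have t5 : u ((e - 1) * t + 2) = (r ^ 2 - 1) * u t + 2 := by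
    rw [map_add, map_mul, map_sub, map_one, hr2, map_ofNat]
  have t6 : w ((e - 1) * t + 2) = 2 - w t + w t / r ^ 2 := by
    rw [map_add, map_mul, map_sub, map_one, hw, hr2, map_ofNat]
    ring
  have t7 := one_le (2 - t) (by simp only [Zsqrtd.re_sub, Zsqrtd.re_ofNat]; omega)
  rw [map_sub, map_sub, map_ofNat, map_ofNat] at t7
  have := core r (u t) (w t) hr (one_le t t1) t7
    (by
      rw [← t5, t4, le_div_iff₀ z0]
      rw [le_div_iff₀ r0] at n1
      linarith)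
    (by
      rw [← t5, t4, div_lt_iff₀ z0]
      rw [div_lt_iff₀ r0, zpow_add_one₀ hp.ne'] at n2
      calc _ < _ := n2
        _ = _ := by rw [show r ^ 3 = u e * r by rw [hr2]; ring]; ring)
  rw [← t5, ← t6, ← abs_mul, ← norm_uw, t3] at this
  linarith

theorem unit (j : ℕ) : ∃ e : ℤ√2, e.norm = 1 ∧ 144 ^ 2 ≤ u e ∧ 2 ^ (j + 2) ∣ e - 1 := by
  induction j with
  | zero =>
    refine ⟨⟨665857, 470832⟩, by decide, ?_, ⟨⟨166464, 117708⟩, by decide⟩⟩
    simp only [u, Zsqrtd.lift_apply_apply]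
    push_cast
    nlinarith [Real.sqrt_nonneg 2]
  | succ j ih =>
    obtain ⟨e, h1, h2, g, h3⟩ := ih
    refine ⟨e * e, by rw [Zsqrtd.norm_mul, h1, one_mul], by rw [map_mul]; nlinarith,
      g * (2 ^ (j + 1) * g + 1), ?_⟩
    have : e = 2 ^ (j + 2) * g + 1 := by linear_combination h3
    rw [this]
    ring

theorem dvd_iff (n : ℕ) (a : ℤ√2) :
    Ideal.span {(Zsqrtd.sqrtd : ℤ√2)} ^ n ∣ Ideal.span {a} ↔ Zsqrtd.sqrtd ^ n ∣ a := by
  rw [Ideal.span_singleton_pow]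
  constructor
  · intro h
    exact Ideal.mem_span_singleton.1 (Ideal.le_of_dvd h (Ideal.mem_span_singleton_self a))
  · rintro ⟨c, rfl⟩
    exact ⟨Ideal.span {c}, (Ideal.span_singleton_mul_span_singleton _ _).symm⟩

theorem norm_dvd (n : ℕ) (a : ℤ√2) (h : Zsqrtd.sqrtd ^ n ∣ a) : 2 ^ n ∣ |a.norm| := by
  obtain ⟨c, rfl⟩ := h
  have : ((Zsqrtd.sqrtd : ℤ√2) ^ n).norm = (-2) ^ n := by
    have := map_pow (Zsqrtd.normMonoidHom (d := 2)) Zsqrtd.sqrtd n
    exact this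
  rw [Zsqrtd.norm_mul, this, abs_mul, abs_pow]
  exact dvd_mul_right _ _

theorem fin (a : ℤ√2) (h : a.norm ≠ 0) :
    FiniteMultiplicity (Ideal.span {(Zsqrtd.sqrtd : ℤ√2)}) (Ideal.span {a}) := by
  refine ⟨a.norm.natAbs, fun c => ?_⟩
  have h1 := Int.le_of_dvd (abs_pos.2 h) (norm_dvd _ _ ((dvd_iff _ _).1 c))
  have h2 : a.norm.natAbs < 2 ^ (a.norm.natAbs + 1) :=
    Nat.lt_two_pow_self.trans (Nat.pow_lt_pow_right (by norm_num) (Nat.lt_succ_self _))
  rw [Int.abs_eq_natAbs] at h1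
  exact absurd h1 (by exact_mod_cast not_le.2 h2)

theorem eucl (a b : ℤ√2) (hb : b ≠ 0) : ∃ q, |(a - b * q).norm| < |b.norm| := by
  have hn : b.norm ≠ 0 := fun c => hb ((Zsqrtd.norm_eq_zero nsq b).1 c)
  have hp := abs_pos.2 hn
  have rd : ∀ x : ℤ, ∃ k : ℤ, 4 * (x - b.norm * k) ^ 2 ≤ b.norm ^ 2 := by
    intro x
    refine ⟨round ((x : ℚ) / b.norm), ?_⟩
    have h1 := abs_sub_round ((x : ℚ) / b.norm)
    have hq : (b.norm : ℚ) ≠ 0 := by exact_mod_cast hn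
    have h2 : ((x : ℚ) / b.norm - round ((x : ℚ) / b.norm)) ^ 2 ≤ (1 / 2) ^ 2 := by
      rw [← sq_abs]
      exact pow_le_pow_left₀ (abs_nonneg _) h1 2
    have h3 : (x : ℚ) - b.norm * round ((x : ℚ) / b.norm) =
        b.norm * ((x : ℚ) / b.norm - round ((x : ℚ) / b.norm)) := by field_simp
    have : 4 * ((x : ℚ) - b.norm * round ((x : ℚ) / b.norm)) ^ 2 ≤ (b.norm : ℚ) ^ 2 := by
      rw [h3, mul_pow]
      nlinarith [sq_nonneg (b.norm : ℚ)]
    exact_mod_cast this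
  obtain ⟨k, hk⟩ := rd (a * star b).re
  obtain ⟨l, hl⟩ := rd (a * star b).im
  refine ⟨⟨k, l⟩, ?_⟩
  have e1 : (a - b * ⟨k, l⟩) * star b = a * star b - (b.norm : ℤ√2) * ⟨k, l⟩ := by
    rw [Zsqrtd.norm_eq_mul_conj]
    ring
  have e2 := congrArg Zsqrtd.norm e1
  rw [Zsqrtd.norm_mul, Zsqrtd.norm_conj, Zsqrtd.norm_def (a * star b - _)] at e2
  simp only [Zsqrtd.re_sub, Zsqrtd.im_sub, Zsqrtd.re_smul, Zsqrtd.im_smul] at e2
  have e3 : |(a - b * ⟨k, l⟩).norm * b.norm| < |b.norm| * |b.norm| := by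
    rw [e2, abs_mul_abs_self, abs_lt]
    have := mul_self_pos.2 hn
    constructor <;> nlinarith [sq_nonneg ((a * star b).re - b.norm * k),
      sq_nonneg ((a * star b).im - b.norm * l)]
  rw [abs_mul] at e3
  exact lt_of_mul_lt_mul_right e3 hp.le

end Pool.Agent.H.MP_f42bc2_nt
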